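import Pool.Agent.helper75.AU.SpecR

/-!
Module BA2 of project au.
-/

set_option autoImplicit false

namespace Pool.Agent.helper75.AU

open scoped Classical
open Pool.Agent.helper53.AU MulAction

theorem BA2_mem {k G X : Type} [Field k] [Group G] [Fintype G] [MulAction G X] [Fintype X]
    {g : ℕ} (R : Ram k G X g) (x : X) (s : G) :
    s ∈ R.P x ↔ ∃ h : s ∈ stabilizer G x, R.θ x ⟨s, h⟩ = 1 := by
  unfold Ram.P
  rw [Subgroup.mem_map]
  constructor
  · rintro ⟨y, hy, rfl⟩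
    exact ⟨y.2, hy⟩
  · rintro ⟨h, h1⟩
    exact ⟨⟨s, h⟩, h1, rfl⟩

theorem BA2_pow {k G X : Type} [Field k] [Group G] [Fintype G] [MulAction G X] [Fintype X]
    {g : ℕ} (R : Ram k G X g) (x : X) (s : G) (hs : s ∈ R.P x) : ∃ n : ℕ, s ^ (3 ^ n) = 1 := by
  obtain ⟨h, h1⟩ := (BA2_mem R x s).1 hs
  by_cases h2 : s = 1
  · exact ⟨0, by simp [h2]⟩
  · rcases (R.tame x ⟨s, h⟩).1 h1 with h3 | h3
    · exact absurd h3 h2
    · exact R.wild x s h h2 h3

/-- no element of order 3 in characteristic 3 -/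
theorem BA2_three {k : Type} [Field k] [CharP k 3] (u : kˣ) (h : u ^ 3 = 1) : u = 1 := by
  have : Fact (Nat.Prime 3) := ⟨Nat.prime_three⟩
  have h1 : ((u : k) - 1) ^ 3 = 0 := by
    rw [sub_pow_char (R := k) (p := 3), one_pow]
    have : (u : k) ^ 3 = 1 := by
      rw [← Units.val_pow_eq_pow_val, h, Units.val_one]
    rw [this, sub_self]
  have h2 : (u : k) - 1 = 0 := by simpa using h1
  apply Units.ext
  rw [Units.val_one]
  exact sub_eq_zero.1 h2

theorem BA2 : BA2_stmt := by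
  intro k G X _ _ _ _ _ _ g R x H
  have : Fact (Nat.Prime 3) := ⟨Nat.prime_three⟩
  set K : Subgroup G := H ⊓ stabilizer G x with hK
  let f : K →* kˣ := (R.θ x).comp (Subgroup.inclusion (inf_le_right : K ≤ stabilizer G x))
  have hf : ∀ (s : G) (h : s ∈ K), f ⟨s, h⟩ = R.θ x ⟨s, h.2⟩ := fun s h => rfl
  have hfker : ∀ (s : G) (h : s ∈ K), f ⟨s, h⟩ = 1 ↔ s ∈ H ⊓ R.P x := by
    intro s h
    rw [hf, Subgroup.mem_inf, BA2_mem]
    constructor
    · intro h1
      exact ⟨h.1, h.2, h1⟩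
    · rintro ⟨_, _, h1⟩
      exact h1
  have hcyc : IsCyclic f.range := inferInstance
  obtain ⟨γ, hγ⟩ := hcyc.exists_generator
  obtain ⟨c0, hc0⟩ := γ.2
  set m := Nat.card f.range with hm
  have hm0 : 0 < m := Nat.card_pos
  have hordγ : orderOf (f c0) = m := by
    rw [hc0, Subgroup.orderOf_coe, orderOf_eq_card_of_forall_mem_zpowers hγ]
  have hm3 : ¬ 3 ∣ m := by
    intro h3
    obtain ⟨d, hd⟩ := h3
    have hd0 : 0 < d := by
      rcases Nat.eq_zero_or_pos d with h | h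
      · rw [h] at hd; omega
      · exact h
    have h1 : (f c0 ^ d) ^ 3 = 1 := by
      rw [← pow_mul, mul_comm, ← hd, ← hordγ, pow_orderOf_eq_one]
    have h2 := BA2_three _ h1
    have h3 := orderOf_dvd_of_pow_eq_one h2
    rw [hordγ] at h3
    have := Nat.le_of_dvd hd0 h3
    omega
  -- remove the 3-part
  have hord0 : orderOf c0 ≠ 0 := (orderOf_pos c0).ne'
  obtain ⟨a, t, ht3, hat⟩ := Nat.exists_eq_pow_mul_and_not_dvd hord0 3 (by norm_num)
  set c : K := c0 ^ (3 ^ a) with hc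
  have hordc : orderOf c = t := by
    rw [hc, orderOf_pow_of_dvd (pow_ne_zero _ (by norm_num)) ⟨t, hat⟩, hat,
      Nat.mul_div_cancel_left _ (by positivity)]
  have hordfc : orderOf (f c) = m := by
    rw [hc, map_pow, Nat.Coprime.orderOf_pow, hordγ]
    rw [hordγ]
    apply Nat.Coprime.pow_right
    exact ((Nat.Prime.coprime_iff_not_dvd Nat.prime_three).2 hm3).symm
  have hmt : m ∣ t := by
    rw [← hordfc, ← hordc]
    exact orderOf_map_dvd f c
  have hker3 : ∀ s : K, f s = 1 → ∃ n : ℕ, s ^ (3 ^ n) = 1 := by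
    intro s hs
    have h1 := (hfker s.1 s.2).1 hs
    obtain ⟨n, hn⟩ := BA2_pow R x s.1 h1.2
    exact ⟨n, Subtype.ext (by simpa using hn)⟩
  have hcm : c ^ m = 1 := by
    have h1 : f (c ^ m) = 1 := by rw [map_pow, ← hordfc, pow_orderOf_eq_one]
    obtain ⟨n, hn⟩ := hker3 _ h1
    have h2 : orderOf (c ^ m) ∣ 3 ^ n := orderOf_dvd_of_pow_eq_one hn
    have h3 : orderOf (c ^ m) ∣ t := by
      rw [← hordc]; exact orderOf_pow_dvd m
    have h4 : Nat.Coprime (3 ^ n) t :=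
      Nat.Coprime.pow_left _ ((Nat.Prime.coprime_iff_not_dvd Nat.prime_three).2 ht3)
    exact orderOf_eq_one_iff.1 (Nat.eq_one_of_dvd_coprimes h4 h2 h3)
  have htm : t = m := Nat.dvd_antisymm (by rw [← hordc]; exact orderOf_dvd_of_pow_eq_one hcm) hmt
  have hordc' : orderOf (c : G) = m := by rw [Subgroup.orderOf_coe, hordc, htm]
  have hgen : ∀ s : G, s ∈ K → ∃ p ∈ H ⊓ R.P x, ∃ n : ℕ, s = p * (c : G) ^ n := by
    intro s hs
    -- `f s` is a power of `f c`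
    have h1 : f c ∈ f.range := ⟨c, rfl⟩
    have h2 : Nat.card (Subgroup.zpowers (⟨f c, h1⟩ : f.range)) = Nat.card f.range := by
      rw [Nat.card_zpowers, ← hm, ← hordfc]
      exact Subgroup.orderOf_mk _ _
    have h3 : Subgroup.zpowers (⟨f c, h1⟩ : f.range) = ⊤ := Subgroup.eq_top_of_card_eq _ h2
    have h4 : (⟨f ⟨s, hs⟩, ⟨_, rfl⟩⟩ : f.range) ∈ Subgroup.zpowers (⟨f c, h1⟩ : f.range) := by
      rw [h3]; trivial
    rw [← mem_powers_iff_mem_zpowers] at h4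
    obtain ⟨n, hn⟩ := h4
    have h5 : f c ^ n = f ⟨s, hs⟩ := by
      have := congrArg Subtype.val hn
      simpa using this
    refine ⟨s * ((c : G) ^ n)⁻¹, ?_, n, by group⟩
    have h6 : f (⟨s, hs⟩ * (c ^ n)⁻¹) = 1 := by
      rw [map_mul, map_inv, map_pow, h5, mul_inv_cancel]
    have h7 := (hfker _ (⟨s, hs⟩ * (c ^ n)⁻¹ : K).2).1 h6
    simpa using h7
  refine ⟨⟨(c : G), c.2, ?_, ?_, hgen⟩, ?_⟩
  · rw [hordc']
    have h1 := Subgroup.card_mul_index f.ker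
    rw [Subgroup.index_ker] at h1
    rw [← h1]
    congr 1
    refine Nat.card_congr ?_
    refine ⟨fun s => ⟨s.1.1, (hfker s.1.1 s.1.2).1 s.2⟩,
      fun s => ⟨⟨s.1, s.2.1, ((BA2_mem R x s.1).1 s.2.2).1⟩, ?_⟩, fun s => rfl, fun s => rfl⟩
    exact (hfker _ _).2 s.2
  · rw [hordc']; exact hm3
  · intro hH hbot
    refine ⟨⟨(c : G), c.2.1⟩, ?_⟩
    intro s
    obtain ⟨p, hp, n, hn⟩ := hgen s.1 ⟨s.2, hH s.2⟩
    rw [hbot, Subgroup.mem_bot] at hp
    rw [hp, one_mul] at hn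
    refine ⟨(n : ℤ), Subtype.ext ?_⟩
    simp [hn]

end Pool.Agent.helper75.AU
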