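import Pool.Agent.helper53.AU.SpecG3

/-!
Module C8 of project au: arithmetic of case (c).
-/

set_option autoImplicit false

namespace Pool.Agent.helper53.AU

open scoped Classical

theorem C8_quot (c c' : ℕ) (hc' : 1 ≤ c') (h : (3 : ℤ) ^ c' + 1 ∣ 3 ^ c + 1) :
    ∃ q, c = c' * q ∧ Odd q := by
  have hdiv := Nat.div_add_mod c c'
  have hr : c % c' < c' := Nat.mod_lt _ (by omega)
  set q := c / c' with hq
  set r := c % c' with hr'
  have h1 : (3 : ℤ) ^ c = (3 ^ c') ^ q * 3 ^ r := by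
    rw [← pow_mul, ← pow_add, hdiv]
  have h2 : (3 : ℤ) ^ c' + 1 ∣ (3 ^ c') ^ q - (-1) ^ q := by
    have := sub_dvd_pow_sub_pow ((3 : ℤ) ^ c') (-1) q
    simpa using this
  have h3 : (3 : ℤ) ^ c' + 1 ∣ (-1) ^ q * 3 ^ r + 1 := by
    have h4 : (-1 : ℤ) ^ q * 3 ^ r + 1 = (3 ^ c + 1) - ((3 ^ c') ^ q - (-1) ^ q) * 3 ^ r := by
      rw [h1]; ring
    rw [h4]
    exact dvd_sub h (Dvd.dvd.mul_right h2 _)
  have hlt : (3 : ℤ) ^ r < 3 ^ c' := pow_lt_pow_right₀ (by norm_num) hr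
  have hpos : (0 : ℤ) < 3 ^ r := by positivity
  rcases Nat.even_or_odd q with he | ho
  · rw [he.neg_one_pow, one_mul] at h3
    have := Int.le_of_dvd (by omega) h3
    omega
  · rw [ho.neg_one_pow] at h3
    have h5 : (3 : ℤ) ^ c' + 1 ∣ 3 ^ r - 1 := by
      have : (3 : ℤ) ^ r - 1 = -(-1 * 3 ^ r + 1) := by ring
      rw [this]
      exact (dvd_neg).2 h3
    have h6 : (3 : ℤ) ^ r - 1 = 0 := by
      by_contra hne
      have := Int.le_of_dvd (by omega) h5
      omega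
    have h7 : r = 0 := by
      by_contra hne
      have h8 : (3 : ℤ) ^ 1 ≤ 3 ^ r := pow_le_pow_right₀ (by norm_num) (by omega)
      omega
    exact ⟨q, by omega, ho⟩

/-- the final contradiction over the integers -/
theorem C8_final (y Q m k j : ℤ) (hy : 27 ≤ y) (hQ : y ^ 2 - y + 1 ≤ Q) (hj : m + y = j * Q)
    (hm : 1 ≤ m) (hk : 1 ≤ k) (h : Q * (y + 1) - 2 = (y - 1) * m * k) : False := by
  have hQ0 : 0 < Q := by nlinarith
  have hj1 : 1 ≤ j := by
    by_contra hcon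
    have : j ≤ 0 := by omega
    nlinarith
  have hmQ : Q - y ≤ m := by nlinarith
  rcases eq_or_lt_of_le hk with hk1 | hk1
  · rw [← hk1, mul_one] at h
    rcases eq_or_lt_of_le hj1 with hj2 | hj2
    · rw [← hj2, one_mul] at hj
      have hm' : m = Q - y := by omega
      rw [hm'] at h
      nlinarith
    · have hj3 : 2 ≤ j := by omega
      have hm2 : 2 * Q - y ≤ m := by nlinarith
      have h2 : (y - 1) * (2 * Q - y) ≤ (y - 1) * m := mul_le_mul_of_nonneg_left hm2 (by omega)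
      nlinarith
  · have hk2 : 2 ≤ k := by omega
    have h1 : (y - 1) * (Q - y) ≤ (y - 1) * m := mul_le_mul_of_nonneg_left hmQ (by omega)
    have h3 : 0 ≤ (y - 1) * m := mul_nonneg (by omega) (by omega)
    have h2 : (y - 1) * m * 2 ≤ (y - 1) * m * k := mul_le_mul_of_nonneg_left hk2 h3
    nlinarith

theorem C8 : C8_stmt := by
  intro c c' b Q n hc' hc hQ hQc hb _ hn hmod
  have hZ : (3 : ℤ) ^ c + 1 = Q * (3 ^ c' + 1) := by exact_mod_cast hQc
  obtain ⟨q, hq, hodd⟩ := C8_quot c c' (by omega) ⟨Q, by rw [hZ]; ring⟩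
  have hy27 : 27 ≤ 3 ^ c' := by
    calc 27 = 3 ^ 3 := by norm_num
      _ ≤ 3 ^ c' := Nat.pow_le_pow_right (by norm_num) hc'
  obtain ⟨y, hy⟩ : ∃ y, y = 3 ^ c' := ⟨_, rfl⟩
  rw [← hy] at hy27 hQc hn
  have hpow : 3 ^ c = y ^ q := by rw [hq, pow_mul, hy]
  have hq3 : 3 ≤ q := by
    obtain ⟨s, hs⟩ := hodd
    by_contra hcon
    have : q = 1 := by omega
    rw [this, pow_one] at hpow
    rw [hpow] at hQc
    have : (Q - 1) * (y + 1) = 0 := by
      rw [Nat.sub_mul, ← hQc]; omega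
    rcases Nat.mul_eq_zero.1 this with h | h <;> omega
  have hcc : c' ≤ c := by rw [hq]; nlinarith
  have hyodd : y % 2 = 1 := by
    rw [hy]
    exact Nat.odd_iff.1 ((by decide : Odd 3).pow)
  obtain ⟨h, hh⟩ : ∃ h, y = 2 * h + 1 := ⟨y / 2, by omega⟩
  have hhy : (y - 1) / 2 = h := by omega
  rw [hhy] at hn
  have hsplit : 3 ^ c = y * 3 ^ (c - c') := by
    rw [hy, ← pow_add]; congr 1; omega
  have hn2 : n * h = 3 ^ (c - c') * b := by
    rw [hsplit] at hn
    have : y * (n * h) = y * (3 ^ (c - c') * b) := by linarith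
    exact Nat.eq_of_mul_eq_mul_left (by omega) this
  have h3y : 3 ∣ y := by
    rw [hy]; exact dvd_pow_self 3 (by omega)
  have hcop : Nat.Coprime h (3 ^ (c - c')) := by
    apply Nat.Coprime.pow_right
    rw [Nat.coprime_comm]
    apply (Nat.Prime.coprime_iff_not_dvd Nat.prime_three).2
    intro h3
    omega
  have hdvd : h ∣ b := by
    apply hcop.dvd_of_dvd_mul_left
    exact ⟨n, by rw [← hn2]; ring⟩
  obtain ⟨m, hm⟩ := hdvd
  have hh0 : 0 < h := by omega
  have hn3 : n = 3 ^ (c - c') * m := by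
    rw [hm] at hn2
    have : h * n = h * (3 ^ (c - c') * m) := by linarith
    exact Nat.eq_of_mul_eq_mul_left hh0 this
  have hodd3 : (3 ^ c) % 2 = 1 := Nat.odd_iff.1 ((by decide : Odd 3).pow)
  have hbig : y ^ 3 ≤ 3 ^ c := by
    rw [hpow]; exact Nat.pow_le_pow_right (by omega) hq3
  have hy3 : y ≤ y ^ 3 := Nat.le_self_pow (by norm_num) y
  obtain ⟨k, hk⟩ := hb
  have hk2 : 3 ^ c = 2 * (b * k) + 1 := by omega
  rw [hm] at hk2
  have hm1 : 1 ≤ m := by
    by_contra hcon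
    have : m = 0 := by omega
    rw [this] at hk2
    simp at hk2
    omega
  have hk1 : 1 ≤ k := by
    by_contra hcon
    have : k = 0 := by omega
    rw [this] at hk2
    simp at hk2
    omega
  -- divisibility by `Q`
  have hdj : (Q : ℤ) ∣ (m : ℤ) + y := by
    have h1 : (Q : ℤ) ∣ (n : ℤ) - 1 := by
      have := (Nat.modEq_iff_dvd.1 hmod.symm)
      simpa using this
    have h2 : (Q : ℤ) ∣ (3 : ℤ) ^ c + 1 := ⟨(3 ^ c' + 1), hZ⟩
    have h3 : (m : ℤ) + y = ((3 : ℤ) ^ c + 1) * m - y * ((n : ℤ) - 1) := by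
      have h4 : (y : ℤ) * n = (3 : ℤ) ^ c * m := by
        have : y * n = 3 ^ c * m := by rw [hsplit, hn3]; ring
        exact_mod_cast this
      linarith
    rw [h3]
    exact dvd_sub (Dvd.dvd.mul_right h2 _) (Dvd.dvd.mul_left h1 _)
  obtain ⟨j, hj⟩ := hdj
  have hQy : (y : ℤ) ^ 2 - y + 1 ≤ Q := by
    have h1 : (y : ℤ) ^ 3 + 1 ≤ Q * (y + 1) := by
      have : y ^ 3 + 1 ≤ Q * (y + 1) := by omega
      exact_mod_cast this
    have h2 : ((y : ℤ) ^ 2 - y + 1) * (y + 1) ≤ Q * (y + 1) := by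
      have : ((y : ℤ) ^ 2 - y + 1) * (y + 1) = y ^ 3 + 1 := by ring
      linarith
    exact le_of_mul_le_mul_right h2 (by positivity)
  have hfin : (Q : ℤ) * (y + 1) - 2 = (y - 1) * m * k := by
    have h1 : (Q : ℤ) * (y + 1) = 3 ^ c + 1 := by exact_mod_cast hQc.symm
    have h2 : (3 : ℤ) ^ c = 2 * (h * m * k) + 1 := by exact_mod_cast hk2
    have h3 : (y : ℤ) = 2 * h + 1 := by exact_mod_cast hh
    rw [h1, h2, h3]
    ring
  exact C8_final y Q m k j (by exact_mod_cast hy27) hQy (by rw [hj]; ring)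
    (by exact_mod_cast hm1) (by exact_mod_cast hk1) hfin

end Pool.Agent.helper53.AU
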