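import Pool.Agent.helper75.AU.SpecR2

/-!
Module IGA of project au: four Sylow 3-subgroups are impossible in Case I.
-/

set_option autoImplicit false

namespace Pool.Agent.helper75.AU

open scoped Classical
open Pool.Agent.helper53.AU MulAction

theorem IGA_mem_K1 {G : Type} [Group G] (z : G) :
    z ∈ K1 G ↔ (∀ S : Sylow 3 G, z • S = S) ∧ z ∈ thr G := by
  unfold K1 ph
  rw [Subgroup.mem_inf, MonoidHom.mem_ker]
  constructor
  · rintro ⟨h1, h2⟩
    refine ⟨fun S => ?_, h2⟩
    have := congrArg (fun f : Equiv.Perm (Sylow 3 G) => f S) h1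
    simpa using this
  · rintro ⟨h1, h2⟩
    refine ⟨Equiv.ext fun S => ?_, h2⟩
    simpa using h1 S

theorem IGA_dvd {G : Type} [Group G] [Finite G] (S0 : Sylow 3 G) (M : Subgroup G)
    (hM : ∀ m ∈ M, m • S0 = S0) (h4 : Nat.card (Sylow 3 G) = 4) (hMt : M ≤ thr G)
    (hK : K1 G ≤ M) : ∃ d, d ∣ 6 ∧ Nat.card M = Nat.card (K1 G) * d := by
  let A := {S : Sylow 3 G // S ≠ S0}
  let act : MulAction M A :=
    { smul := fun m S => ⟨(m : G) • S.1, fun h =>
        S.2 (smul_left_cancel (m : G) (h.trans (hM m m.2).symm))⟩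
      one_smul := fun S => Subtype.ext (one_smul G S.1)
      mul_smul := fun a b S => Subtype.ext (mul_smul (a : G) (b : G) S.1) }
  have hact : ∀ (m : M) (S : A), ((m • S : A) : Sylow 3 G) = (m : G) • S.1 := fun m S => rfl
  let ψ : M →* Equiv.Perm A := MulAction.toPermHom M A
  have hψ : ∀ m : M, ψ m = 1 ↔ (m : G) ∈ K1 G := by
    intro m
    rw [IGA_mem_K1]
    constructor
    · intro h
      refine ⟨fun S => ?_, hMt m.2⟩
      by_cases hS : S = S0
      · rw [hS]; exact hM m m.2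
      · have h1 : (ψ m) ⟨S, hS⟩ = ⟨S, hS⟩ := by rw [h]; rfl
        exact congrArg Subtype.val h1
    · rintro ⟨h, -⟩
      refine Equiv.ext fun S => Subtype.ext ?_
      exact h S.1
  refine ⟨Nat.card ψ.range, ?_, ?_⟩
  · have h1 : Nat.card ψ.range ∣ Nat.card (Equiv.Perm A) := Subgroup.card_subgroup_dvd_card _
    have h2 : Nat.card A = 3 := by
      have : Fintype (Sylow 3 G) := Fintype.ofFinite _
      rw [Nat.card_eq_fintype_card] at h4 ⊢
      have h3 : Fintype.card A = Fintype.card (Sylow 3 G) - Fintype.card {S // S = S0} :=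
        Fintype.card_subtype_compl (fun S => S = S0)
      rw [h3, h4, Fintype.card_subtype_eq]
    have h3 : Nat.card (Equiv.Perm A) = 6 := by
      rw [Nat.card_perm, h2]; rfl
    rwa [h3] at h1
  · have h1 := Subgroup.card_mul_index ψ.ker
    rw [Subgroup.index_ker] at h1
    rw [← h1]
    congr 1
    refine Nat.card_congr ⟨fun m => ⟨m.1.1, (hψ m.1).1 m.2⟩,
      fun z => ⟨⟨z.1, hK z.2⟩, (hψ ⟨z.1, hK z.2⟩).2 z.2⟩, fun m => rfl, fun z => rfl⟩

theorem IGA (hBA1 : BA1_stmt) (hC4 : C4_stmt) : IGA_stmt := by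
  intro k G X _ _ _ _ _ _ l R x y c u h' e' u₁ hl h6 hI he
  subst he
  have : Fact (Nat.Prime 3) := ⟨Nat.prime_three⟩
  obtain ⟨-, -, -, -, -, -, -, h3h, ⟨m, hqm⟩, -⟩ := hBA1 k G X (l + 1) R x
  obtain ⟨P, hP⟩ := h6.two.syl
  set r := Nat.card (K1 G ⊓ R.P x : Subgroup G) with hr
  have hr0 : 0 < r := Nat.card_pos
  have hM : ∃ d, d ∣ 6 ∧ Nat.card (Subgroup.normalizer (R.P x : Set G) ⊓ thr G : Subgroup G) =
      Nat.card (K1 G) * d := by
    refine IGA_dvd P _ ?_ h6.om inf_le_right ?_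
    · intro m hm
      rw [Sylow.smul_eq_iff_mem_normalizer, ← P.coe_coe, hP]
      exact hm.1
    · intro z hz
      refine ⟨?_, ((IGA_mem_K1 z).1 hz).2⟩
      rw [← hP, P.coe_coe]
      exact Sylow.smul_eq_iff_mem_normalizer.1 (((IGA_mem_K1 z).1 hz).1 P)
  obtain ⟨d, hd6, hd⟩ := hM
  rw [h6.cardN1, hI.u1, mul_one] at hd
  have hrK : r ∣ Nat.card (K1 G) := Subgroup.card_dvd_of_le inf_le_left
  have hK0 : 0 < Nat.card (K1 G) := Nat.card_pos
  have hKr : Nat.card (K1 G) = r ∨ Nat.card (K1 G) = 2 * r := by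
    obtain ⟨t, ht⟩ := hrK
    have h1 := h6.k1card
    rw [ht] at h1 hK0 ⊢
    have h2 : t ≤ 2 := by
      by_contra hcon
      have : 3 ≤ t := by omega
      have : r * 3 ≤ r * t := Nat.mul_le_mul_left r this
      omega
    have h3 : 0 < t := Nat.pos_of_mul_pos_left hK0 |> fun h => by
      rcases Nat.eq_zero_or_pos t with h' | h'
      · rw [h'] at hK0; simp at hK0
      · exact h'
    interval_cases t
    · left; ring
    · right; ring
  have hrq : r ∣ qq R x := Subgroup.card_dvd_of_le inf_le_right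
  obtain ⟨s, hs⟩ := hrq
  have hs3 : s ∣ 3 ^ m := ⟨r, by rw [← hqm, hs]; ring⟩
  obtain ⟨j, -, hj⟩ := (Nat.dvd_prime_pow Nat.prime_three).1 hs3
  have hsodd : s % 2 = 1 := by
    rw [hj]; exact Nat.odd_iff.1 ((by decide : Odd 3).pow)
  have hh' : h' % 2 = 1 := by have := hI.od; omega
  have hh3 : ¬ 3 ∣ h' := fun h => h3h (by rw [h6.num.hx]; exact Dvd.dvd.mul_left h u)
  have hshodd : (s * h') % 2 = 1 := by
    rw [Nat.mul_mod, hsodd, hh']
  have hd6' : d ≤ 6 := Nat.le_of_dvd (by norm_num) hd6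
  have hsh : s * h' = 1 ∨ s * h' = 3 := by
    rcases hKr with hK | hK
    · rw [hK, hs] at hd
      have h1 : r * (2 * (s * h')) = r * d := by rw [← hd]; ring
      have h2 : 2 * (s * h') = d := Nat.eq_of_mul_eq_mul_left hr0 h1
      interval_cases d <;> omega
    · rw [hK, hs] at hd
      have h1 : (2 * r) * (s * h') = (2 * r) * d := by rw [← hd]; ring
      have h2 : s * h' = d := Nat.eq_of_mul_eq_mul_left (by omega) h1
      interval_cases d <;> omega
  have hfin : h' = 1 ∧ s = 3 := by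
    rcases hsh with h1 | h1
    · exfalso
      have hs1 : s = 1 := Nat.eq_one_of_mul_eq_one_right h1
      rw [hs1, mul_one] at hs
      have h2 : K1 G ⊓ R.P x = R.P x := by
        refine Subgroup.eq_of_le_of_card_ge inf_le_right ?_
        rw [← hr, ← hs]
        exact le_rfl
      have h3 : (R.P x).Normal := by
        have := h6.k1n
        rwa [h2] at this
      rw [← hP] at h3
      have h4 := Sylow.unique_of_normal P h3
      have h5 : Nat.card (Sylow 3 G) = 1 := Nat.card_unique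
      rw [h6.om] at h5
      omega
    · have h2 : h' ∣ 3 := ⟨s, by rw [← h1]; ring⟩
      rcases (Nat.dvd_prime Nat.prime_three).1 h2 with h3 | h3
      · exact ⟨h3, by rw [h3, mul_one] at h1; exact h1⟩
      · exact absurd (by rw [h3]) hh3
  obtain ⟨hh1, hs3'⟩ := hfin
  have hC := (hC4 k G X (l + 1) R x (K1 G ⊓ R.P x) inf_le_right
    (fun a _ s hs => h6.k1n.conj_mem s hs a) (by
      rw [← hr]
      have : Nat.card (R.P x) = qq R x := rfl
      rw [this, hs, hs3']; ring)).1
  have hox := h6.num.ox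
  have hoy := h6.num.oy
  have hrh := h6.two.rh
  have hN := h6.num.N
  have hbig := h6.big
  have hlarge := hl.large
  have hhx := h6.num.hx
  rw [hh1] at hoy hN hhx
  rw [mul_one] at hoy hN hhx
  rw [hhx] at hC
  rw [hN] at hbig
  have hqy : 1 ≤ qq R y := Nat.card_pos
  have hoy2 : oo G y ≤ 2 * qq R x := by
    rw [← hoy]
    calc oo G y = 1 * oo G y := (one_mul _).symm
      _ ≤ qq R y * oo G y := Nat.mul_le_mul_right _ hqy
  rw [hox] at hrh
  have hassoc : 2 * qq R x * u * 4 = 8 * (qq R x * u) := by ring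
  rw [hassoc] at hbig
  generalize qq R x * u = W at *
  generalize oo G y * R.T y = Z at *
  omega

end Pool.Agent.helper75.AU
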