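import Pool.Agent.helper87.AU.SpecQ1

/-!
# Project au (MP_97532f_ag), module QM1: linear algebra over `k[X]`
-/

namespace Pool.Agent.helper53.AU

open scoped Classical
open Polynomial Module

noncomputable section

/-- coordinates of the elements of a full rank submodule in the Smith basis -/
theorem QM1_dvd {R M : Type} [CommRing R] [IsDomain R] [IsPrincipalIdealRing R] [AddCommGroup M]
    [Module R M] {n : ℕ} (b : Basis (Fin n) R M) (U : Submodule R M)
    (h : Module.finrank R U = Module.finrank R M) (x : M) (hx : x ∈ U) (i : Fin n) :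
    Submodule.smithNormalFormCoeffs b h i ∣
      (Submodule.smithNormalFormTopBasis b h).repr x i := by
  have ab_eq := Submodule.smithNormalFormBotBasis_def b h
  rw [(Submodule.smithNormalFormBotBasis b h).mem_submodule_iff'] at hx
  obtain ⟨c, rfl⟩ := hx
  refine ⟨c i, ?_⟩
  simp_rw [ab_eq]
  have : ∀ j : Fin n, c j • Submodule.smithNormalFormCoeffs b h j •
      Submodule.smithNormalFormTopBasis b h j =
      (Submodule.smithNormalFormCoeffs b h j * c j) • Submodule.smithNormalFormTopBasis b h j := by
    intro j
    rw [smul_smul, mul_comm]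
  simp_rw [this]
  rw [(Submodule.smithNormalFormTopBasis b h).repr_sum_self]

/-- `QM1`: the dimension of a quotient of `k[X] ^ n` by a submodule which contains the image of `A` and
a power of `X - a` -/
theorem QM1 : QM1_stmt := by
  intro k _ n N A a U hA hAU hNU
  have hrank : Module.finrank k[X] U = Module.finrank k[X] (Fin n → k[X]) := by
    apply le_antisymm
    · exact Submodule.finrank_le U
    · have hAU' : ∀ v, A.mulVecLin v ∈ U := fun v => hAU v
      refine LinearMap.finrank_le_finrank_of_injective
        (f := A.mulVecLin.codRestrict U hAU') ?_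
      rw [← LinearMap.ker_eq_bot, LinearMap.ker_codRestrict, LinearMap.ker_eq_bot']
      intro v hv
      exact Matrix.eq_zero_of_mulVec_eq_zero hA hv
  set b : Basis (Fin n) k[X] (Fin n → k[X]) := Pi.basisFun k[X] (Fin n) with hb
  set d := Submodule.smithNormalFormCoeffs b hrank with hd
  set b' := Submodule.smithNormalFormTopBasis b hrank with hb'
  have hdvd : ∀ x ∈ U, ∀ i, d i ∣ b'.repr x i := fun x hx i => QM1_dvd b U hrank x hx i
  have hdN : ∀ i, d i ∣ (X - C a) ^ N := by
    intro i
    have := hdvd _ (hNU (b' i)) i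
    simpa using this
  have hprime : Prime (X - C a : k[X]) := prime_X_sub_C a
  have hex : ∀ i, ∃ e : ℕ, Associated (d i) ((X - C a) ^ e) := by
    intro i
    obtain ⟨e, -, he⟩ := (dvd_prime_pow hprime N).mp (hdN i)
    exact ⟨e, he⟩
  choose e he using hex
  have hspan : ∀ i, Ideal.span ({d i} : Set k[X]) = Ideal.span ({(X - C a) ^ e i} : Set k[X]) := by
    intro i
    exact Ideal.span_singleton_eq_span_singleton.mpr (he i)
  have hd0 : ∀ i, d i ≠ 0 := fun i => Submodule.smithNormalFormCoeffs_ne_zero b hrank i
  have hdeg : ∀ i, (d i).natDegree = e i := by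
    intro i
    rw [natDegree_eq_of_degree_eq (degree_eq_degree_of_associated (he i)), natDegree_pow,
      natDegree_X_sub_C, mul_one]
  have hfr : ∀ i, Module.finrank k (k[X] ⧸ Ideal.span ({d i} : Set k[X])) = e i := by
    intro i
    rw [finrank_quotient_span_eq_natDegree, hdeg]
  have hfin : ∀ i, Module.Finite k (k[X] ⧸ Ideal.span ({d i} : Set k[X])) := by
    intro i
    exact (AdjoinRoot.powerBasis (hd0 i)).finite
  have heq := Submodule.finrank_quotient_eq_sum k b hrank
  have hfinU : Module.Finite k ((Fin n → k[X]) ⧸ U) :=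
    Module.Finite.equiv ((Submodule.quotientEquivPiSpan U b hrank).restrictScalars k).symm
  refine ⟨hfinU, ?_⟩
  rw [heq, Finset.sum_congr rfl fun i _ => hfr i]
  rw [le_rootMultiplicity_iff hA]
  -- factorisation of `A`
  have hcol : ∀ j : Fin n, A.mulVec (Pi.single j 1) ∈ U := fun j => hAU _
  have hc : ∀ i j, ∃ c : k[X], b'.repr (A.mulVec (Pi.single j 1)) i = d i * c :=
    fun i j => hdvd _ (hcol j) i
  choose c hc using hc
  have hfac : A = (b.toMatrix b') * (Matrix.diagonal d * Matrix.of c) := by
    refine Matrix.ext fun i j => ?_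
    have h1 : ∑ l, (b'.repr (A.mulVec (Pi.single j 1)) l) • b' l = A.mulVec (Pi.single j 1) :=
      b'.sum_repr _
    have h2 : A i j = (A.mulVec (Pi.single j 1)) i := by
      simp [Matrix.mulVec_single]
    have h3 := congrFun h1 i
    rw [Finset.sum_apply] at h3
    rw [h2, ← h3, Matrix.mul_apply]
    apply Finset.sum_congr rfl
    intro l _
    rw [hc l j, Matrix.diagonal_mul, Matrix.of_apply, Basis.toMatrix_apply, hb,
      Pi.basisFun_repr, Pi.smul_apply, smul_eq_mul]
    ring
  rw [hfac, Matrix.det_mul, Matrix.det_mul, Matrix.det_diagonal]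
  have hprod : Associated (∏ i, d i) ((X - C a) ^ ∑ i, e i) := by
    rw [← Finset.prod_pow_eq_pow_sum]
    exact Associated.prod Finset.univ d (fun i => (X - C a) ^ e i) fun i _ => he i
  exact hprod.symm.dvd.trans ((dvd_mul_right _ _).trans (dvd_mul_left _ _))

end

end Pool.Agent.helper53.AU
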