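import Pool.Agent.helper75.AU.SpecR

/-!
Module S62 of project au: the kernel of the action on the Sylow 3-subgroups.
-/

set_option autoImplicit false

namespace Pool.Agent.helper75.AU

open scoped Classical
open Pool.Agent.helper53.AU MulAction

theorem S62_copr {G : Type} [Group G] (q : G) (r a b : ℕ) (hr : r.Prime) (hr3 : r ≠ 3)
    (h1 : q ^ (3 ^ a) = 1) (h2 : q ^ (r ^ b) = 1) : q = 1 := by
  have h3 : Nat.Coprime (3 ^ a) (r ^ b) := by
    apply Nat.Coprime.pow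
    exact (Nat.coprime_primes Nat.prime_three hr).2 (Ne.symm hr3)
  exact orderOf_eq_one_iff.1 (Nat.eq_one_of_dvd_coprimes h3 (orderOf_dvd_of_pow_eq_one h1)
    (orderOf_dvd_of_pow_eq_one h2))

theorem S62_pg {G : Type} [Group G] (p : ℕ) (z : G) (h : ∃ n : ℕ, z ^ (p ^ n) = 1) :
    IsPGroup p (Subgroup.zpowers z) := by
  obtain ⟨n, hn⟩ := h
  rintro ⟨w, hw⟩
  obtain ⟨m, rfl⟩ := Subgroup.mem_zpowers_iff.1 hw
  refine ⟨n, Subtype.ext ?_⟩
  rw [Subgroup.coe_pow, Subgroup.coe_one]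
  show (z ^ m) ^ (p ^ n) = 1
  rw [← zpow_natCast, ← zpow_mul, mul_comm, zpow_mul, zpow_natCast, hn, one_zpow]

section
variable {G : Type} [Group G] [Finite G]

theorem S62_mem_K1 (z : G) : z ∈ K1 G ↔ (∀ S : Sylow 3 G, z • S = S) ∧ z ∈ thr G := by
  unfold K1 ph
  rw [Subgroup.mem_inf, MonoidHom.mem_ker]
  constructor
  · rintro ⟨h1, h2⟩
    refine ⟨fun S => ?_, h2⟩
    have := congrArg (fun f : Equiv.Perm (Sylow 3 G) => f S) h1
    simpa using this
  · rintro ⟨h1, h2⟩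
    refine ⟨Equiv.ext fun S => ?_, h2⟩
    simpa using h1 S

theorem S62_three_mem (S : Sylow 3 G) (z : G) (hz : z • S = S) (h3 : ∃ n : ℕ, z ^ (3 ^ n) = 1) :
    z ∈ (S : Subgroup G) := by
  have h1 := (S62_pg 3 z h3).inf_normalizer_sylow S
  have h2 : z ∈ Subgroup.zpowers z ⊓ Subgroup.normalizer (S : Set G) :=
    ⟨Subgroup.mem_zpowers z, Sylow.smul_eq_iff_mem_normalizer.1 hz⟩
  have h3 : z ∈ Subgroup.zpowers z ⊓ (S : Subgroup G) := by
    rw [← h1]; exact h2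
  exact h3.2

theorem S62_thr_normal : (thr G).Normal := by
  refine ⟨fun s hs g => ?_⟩
  unfold thr at hs ⊢
  induction hs using Subgroup.closure_induction with
  | mem s hs =>
    obtain ⟨n, hn⟩ := hs
    refine Subgroup.subset_closure ⟨n, ?_⟩
    rw [conj_pow, hn]
    simp
  | one => simpa using Subgroup.one_mem _
  | mul a b _ _ ha hb =>
    have : g * (a * b) * g⁻¹ = (g * a * g⁻¹) * (g * b * g⁻¹) := by group
    rw [this]
    exact Subgroup.mul_mem _ ha hb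
  | inv a _ ha =>
    have : g * a⁻¹ * g⁻¹ = (g * a * g⁻¹)⁻¹ := by group
    rw [this]
    exact Subgroup.inv_mem _ ha

theorem S62_K1_normal : (K1 G).Normal := by
  have := S62_thr_normal (G := G)
  unfold K1
  infer_instance

theorem S62_sylow_three (S : Sylow 3 G) (z : G) (hz : z ∈ (S : Subgroup G)) :
    ∃ n : ℕ, z ^ (3 ^ n) = 1 := by
  obtain ⟨n, hn⟩ := S.isPGroup' ⟨z, hz⟩
  exact ⟨n, by simpa using congrArg Subtype.val hn⟩

theorem S62_le (S S' : Sylow 3 G) :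
    K1 G ⊓ (S : Subgroup G) ≤ K1 G ⊓ (S' : Subgroup G) := by
  rintro z ⟨h1, h2⟩
  exact ⟨h1, S62_three_mem S' z (((S62_mem_K1 z).1 h1).1 S') (S62_sylow_three S z h2)⟩

theorem S62_R3_normal (S : Sylow 3 G) : (K1 G ⊓ (S : Subgroup G)).Normal := by
  refine ⟨fun z hz g => ?_⟩
  have h1 : g * z * g⁻¹ ∈ K1 G := S62_K1_normal.conj_mem z hz.1 g
  refine ⟨h1, S62_three_mem S _ (((S62_mem_K1 _).1 h1).1 S) ?_⟩
  obtain ⟨n, hn⟩ := S62_sylow_three S z hz.2
  refine ⟨n, ?_⟩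
  rw [conj_pow, hn]
  simp

theorem S62_comm (S : Sylow 3 G) (z s : G) (hz : z ∈ K1 G) (hs : s ∈ thr G) :
    z * s * z⁻¹ * s⁻¹ ∈ K1 G ⊓ (S : Subgroup G) := by
  have hN := S62_R3_normal S
  unfold thr at hs
  induction hs using Subgroup.closure_induction with
  | mem s hs =>
    obtain ⟨S', hS'⟩ := (S62_pg 3 s hs).exists_le_sylow
    have hsS : s ∈ (S' : Subgroup G) := hS' (Subgroup.mem_zpowers s)
    apply S62_le S' S
    have h1 : z ∈ Subgroup.normalizer (S' : Set G) :=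
      Sylow.smul_eq_iff_mem_normalizer.1 (((S62_mem_K1 z).1 hz).1 S')
    have h2 : z * s * z⁻¹ ∈ (S' : Subgroup G) := (Subgroup.mem_normalizer_iff.1 h1 s).1 hsS
    refine ⟨?_, Subgroup.mul_mem _ h2 (Subgroup.inv_mem _ hsS)⟩
    have h3 : z * s * z⁻¹ * s⁻¹ = z * (s * z⁻¹ * s⁻¹) := by group
    rw [h3]
    exact Subgroup.mul_mem _ hz (S62_K1_normal.conj_mem _ (Subgroup.inv_mem _ hz) s)
  | one => simpa using Subgroup.one_mem _
  | mul a b _ _ ha hb =>
    have : z * (a * b) * z⁻¹ * (a * b)⁻¹ =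
        (z * a * z⁻¹ * a⁻¹) * (a * (z * b * z⁻¹ * b⁻¹) * a⁻¹) := by group
    rw [this]
    exact Subgroup.mul_mem _ ha (hN.conj_mem _ hb a)
  | inv a _ ha =>
    have : z * a⁻¹ * z⁻¹ * (a⁻¹)⁻¹ = a⁻¹ * (z * a * z⁻¹ * a⁻¹)⁻¹ * (a⁻¹)⁻¹ := by group
    rw [this]
    exact hN.conj_mem _ (Subgroup.inv_mem _ ha) a⁻¹

theorem S62_r (hTR : TR_stmt) (P : Sylow 3 G) (r : ℕ) (hr : r.Prime) (hr3 : r ≠ 3)
    (S : Subgroup G) (hS : S ≤ thr G) (hSr : IsPGroup r S) (hidx : ¬ r ∣ S.relIndex (thr G))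
    (z : G) (hz : z ∈ S ⊓ K1 G) : z ∈ ⁅S, S⁆ := by
  have hz' : z ∈ thr G := hS hz.1
  have hpow : ∀ q ∈ S, ∃ b : ℕ, q ^ (r ^ b) = 1 := by
    intro q hq
    obtain ⟨b, hb⟩ := hSr ⟨q, hq⟩
    exact ⟨b, by simpa using congrArg Subtype.val hb⟩
  have h3 : ∀ (w : G) (hw : w ∈ thr G),
      ∃ n : ℕ, (Abelianization.of (⟨w, hw⟩ : thr G)) ^ (3 ^ n) = 1 := by
    intro w hw
    unfold thr at hw
    induction hw using Subgroup.closure_induction with
    | mem s hs =>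
      obtain ⟨n, hn⟩ := hs
      refine ⟨n, ?_⟩
      rw [← map_pow]
      have : (⟨s, Subgroup.subset_closure ⟨n, hn⟩⟩ : thr G) ^ (3 ^ n) = 1 :=
        Subtype.ext (by simpa using hn)
      rw [this, map_one]
    | one => exact ⟨0, by
        have : (⟨1, Subgroup.one_mem _⟩ : thr G) = 1 := rfl
        rw [this, map_one, one_pow]⟩
    | mul a b ha hb iha ihb =>
      obtain ⟨n, hn⟩ := iha
      obtain ⟨m, hm⟩ := ihb
      refine ⟨n + m, ?_⟩
      have : (⟨a * b, Subgroup.mul_mem _ ha hb⟩ : thr G) = ⟨a, ha⟩ * ⟨b, hb⟩ := rfl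
      rw [this, map_mul, mul_pow, pow_add, pow_mul, hn, one_pow, mul_comm (3 ^ n), pow_mul, hm,
        one_pow, mul_one]
    | inv a ha iha =>
      obtain ⟨n, hn⟩ := iha
      refine ⟨n, ?_⟩
      have : (⟨a⁻¹, Subgroup.inv_mem _ ha⟩ : thr G) = (⟨a, ha⟩)⁻¹ := rfl
      rw [this, map_inv, inv_pow, hn, inv_one]
  have hzc : (⟨z, hz'⟩ : thr G) ∈ ⁅(⊤ : Subgroup (thr G)), (⊤ : Subgroup (thr G))⁆ := by
    obtain ⟨a, ha⟩ := h3 z hz'
    obtain ⟨b, hb⟩ := hpow z hz.1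
    have h4 : Abelianization.of (⟨z, hz'⟩ : thr G) = 1 := by
      refine S62_copr _ r a b hr hr3 ha ?_
      rw [← map_pow]
      have : (⟨z, hz'⟩ : thr G) ^ (r ^ b) = 1 := Subtype.ext (by simpa using hb)
      rw [this, map_one]
    have h5 : (⟨z, hz'⟩ : thr G) ∈ (Abelianization.of : thr G →* Abelianization (thr G)).ker := h4
    rw [Abelianization.ker_of] at h5
    exact h5
  have hmain := hTR (thr G) r (S.subgroupOf (thr G)) ⟨z, hz'⟩ hr
    (hSr.comap_of_injective (thr G).subtype (Subgroup.subtype_injective _)) hidx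
    (Subgroup.mem_subgroupOf.2 hz.1) hzc (by
      rintro ⟨v, hv⟩ n hw
      have hzn : z ^ n ∈ K1 G := Subgroup.pow_mem _ hz.2 n
      have h4 := S62_comm P (z ^ n) v hzn hv
      have h5 : v * z ^ n * v⁻¹ ∈ S := by
        simpa [Subgroup.mem_subgroupOf] using hw
      have h6 : v * z ^ n * v⁻¹ * (z ^ n)⁻¹ ∈ S :=
        Subgroup.mul_mem _ h5 (Subgroup.inv_mem _ (Subgroup.pow_mem _ hz.1 n))
      have h7 : v * z ^ n * v⁻¹ * (z ^ n)⁻¹ ∈ (P : Subgroup G) := by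
        have h8 : v * z ^ n * v⁻¹ * (z ^ n)⁻¹ = (z ^ n * v * (z ^ n)⁻¹ * v⁻¹)⁻¹ := by group
        rw [h8]
        exact Subgroup.inv_mem _ h4.2
      obtain ⟨a, ha⟩ := S62_sylow_three P _ h7
      obtain ⟨b, hb⟩ := hpow _ h6
      have h9 := S62_copr _ r a b hr hr3 ha hb
      have h10 : v * z ^ n * v⁻¹ = z ^ n := by
        rw [← mul_inv_eq_one]; exact h9
      exact Subtype.ext (by simpa using h10))
  have h4 : z ∈ (⁅S.subgroupOf (thr G), S.subgroupOf (thr G)⁆).map (thr G).subtype :=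
    ⟨_, hmain, rfl⟩
  rw [Subgroup.map_commutator, Subgroup.map_subgroupOf_eq_of_le hS] at h4
  exact h4

theorem S62_syl (r : ℕ) (hr : r.Prime) (H T : Subgroup G) (hT : T ≤ H) (hp : IsPGroup r T) :
    ∃ S : Subgroup G, S ≤ H ∧ T ≤ S ∧ IsPGroup r S ∧ ¬ r ∣ S.relIndex H := by
  have : Fact r.Prime := ⟨hr⟩
  have h1 : IsPGroup r (T.subgroupOf H) :=
    hp.comap_of_injective H.subtype (Subgroup.subtype_injective _)
  obtain ⟨Q, hQ⟩ := h1.exists_le_sylow
  refine ⟨(Q : Subgroup H).map H.subtype, Subgroup.map_subtype_le _, ?_, Q.isPGroup'.map _, ?_⟩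
  · rw [← Subgroup.map_subgroupOf_eq_of_le hT]
    exact Subgroup.map_mono hQ
  · have h2 : ((Q : Subgroup H).map H.subtype).relIndex H = (Q : Subgroup H).index := by
      unfold Subgroup.relIndex
      congr 1
      unfold Subgroup.subgroupOf
      exact Subgroup.comap_map_eq_self_of_injective (Subgroup.subtype_injective _) _
    rw [h2]
    exact Q.not_dvd_index

theorem S62_sub (r : ℕ) (hr : r.Prime) (K : Subgroup G) : ∃ T : Subgroup G, T ≤ K ∧
    IsPGroup r T ∧ Nat.card T = r ^ (Nat.card K).factorization r := by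
  have : Fact r.Prime := ⟨hr⟩
  obtain ⟨Q⟩ : Nonempty (Sylow r K) := inferInstance
  refine ⟨(Q : Subgroup K).map K.subtype, Subgroup.map_subtype_le _, Q.isPGroup'.map _, ?_⟩
  rw [Subgroup.card_map_of_injective (Subgroup.subtype_injective _)]
  exact Q.card_eq_multiplicity

end

theorem S62 (hTR : TR_stmt) (hZS : ZS_stmt) (hF3a : F3a_stmt) (hF3b : F3b_stmt) : S62_stmt := by
  intro k G X _ _ _ _ _ _ l R x hl hlG hP
  obtain ⟨P, hP⟩ := hP
  rw [← hP]
  refine ⟨fun z hz s hs => S62_comm P z s hz hs, S62_R3_normal P,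
    fun S => le_antisymm (S62_le S P) (S62_le P S), ?_, ?_⟩
  swap
  · intro S hS hS2 hidx z hz
    exact S62_r hTR P 2 Nat.prime_two (by norm_num) S hS hS2 hidx z hz
  have hK1 : K1 G ≤ thr G := inf_le_right
  have hN0 : Nat.card (K1 G) ≠ 0 := Nat.card_pos.ne'
  -- the prime 2
  have h2 : 2 ^ (Nat.card (K1 G)).factorization 2 ≤ 2 := by
    obtain ⟨T, hT, hTp, hTc⟩ := S62_sub 2 Nat.prime_two (K1 G)
    obtain ⟨S, hS, hTS, hSp, hidx⟩ := S62_syl 2 Nat.prime_two (thr G) T (hT.trans hK1) hTp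
    obtain ⟨A, hA, hAc, hAS, -⟩ := (hF3b k G X l R (by have := hl.mod8; omega)).1 S hSp
    have h3 : Nat.card (S ⊓ K1 G : Subgroup G) ≤ 2 := by
      refine hZS G S A (S ⊓ K1 G) hSp hA hAc hAS
        (fun z hz => S62_r hTR P 2 Nat.prime_two (by norm_num) S hS hSp hidx z hz) ?_
      intro z hz s hs
      have h4 := S62_comm P z s hz.2 (hS hs)
      have h5 : z * s * z⁻¹ * s⁻¹ ∈ S :=
        Subgroup.mul_mem _ (Subgroup.mul_mem _ (Subgroup.mul_mem _ hz.1 hs)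
          (Subgroup.inv_mem _ hz.1)) (Subgroup.inv_mem _ hs)
      obtain ⟨a, ha⟩ := S62_sylow_three P _ h4.2
      obtain ⟨b, hb⟩ := hSp ⟨_, h5⟩
      have h6 := S62_copr (z * s * z⁻¹ * s⁻¹) 2 a b Nat.prime_two (by norm_num) ha
        (by simpa using congrArg Subtype.val hb)
      have h7 : z * s * z⁻¹ = s := by
        rw [← mul_inv_eq_one]; exact h6
      exact mul_inv_eq_iff_eq_mul.1 h7
    rw [← hTc]
    exact (Subgroup.card_le_of_le (le_inf hTS hT)).trans h3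
  -- the prime 3
  have h3 : 3 ^ (Nat.card (K1 G)).factorization 3 ≤
      Nat.card (K1 G ⊓ (P : Subgroup G) : Subgroup G) := by
    obtain ⟨T, hT, hTp, hTc⟩ := S62_sub 3 Nat.prime_three (K1 G)
    rw [← hTc]
    refine Subgroup.card_le_of_le fun z hz => ⟨hT hz, ?_⟩
    refine S62_three_mem P z (((S62_mem_K1 z).1 (hT hz)).1 P) ?_
    obtain ⟨n, hn⟩ := hTp ⟨z, hz⟩
    exact ⟨n, by simpa using congrArg Subtype.val hn⟩
  -- the other primes
  have h5 : ∀ r : ℕ, r.Prime → r ≠ 2 → r ≠ 3 → (Nat.card (K1 G)).factorization r = 0 := by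
    intro r hr hr2 hr3
    by_contra hne
    have hrN : r ∣ Nat.card (K1 G) := Nat.dvd_of_factorization_pos hne
    have hrG : r ∣ Nat.card G := hrN.trans (Subgroup.card_subgroup_dvd_card _)
    have hrl : r ≠ l := by
      rintro rfl
      exact hlG hrG
    have hr5 : 5 ≤ r := by
      have h2 := hr.two_le
      by_contra hlt
      have : r = 4 := by omega
      rw [this] at hr
      exact absurd hr (by norm_num)
    obtain ⟨T, hT, hTp, hTc⟩ := S62_sub r hr (K1 G)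
    obtain ⟨S, hS, hTS, hSp, hidx⟩ := S62_syl r hr (thr G) T (hT.trans hK1) hTp
    have hcyc : IsCyclic S := (hF3a k G X l R r S hl.prime hr hr5 hrl hSp).2
    have hSS : ⁅S, S⁆ = ⊥ := by
      rw [Subgroup.commutator_eq_bot_iff_le_centralizer]
      intro s hs
      rw [Subgroup.mem_centralizer_iff]
      intro t ht
      obtain ⟨w, hw⟩ := hcyc.exists_generator
      obtain ⟨i, hi⟩ := Subgroup.mem_zpowers_iff.1 (hw ⟨t, ht⟩)
      obtain ⟨j, hj⟩ := Subgroup.mem_zpowers_iff.1 (hw ⟨s, hs⟩)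
      have h6 : (⟨t, ht⟩ : S) * ⟨s, hs⟩ = ⟨s, hs⟩ * ⟨t, ht⟩ := by
        rw [← hi, ← hj, ← zpow_add, ← zpow_add, add_comm]
      exact congrArg Subtype.val h6
    have hTb : T = ⊥ := by
      rw [eq_bot_iff]
      intro z hz
      have := S62_r hTR P r hr hr3 S hS hSp hidx z ⟨hTS hz, hT hz⟩
      rwa [hSS] at this
    rw [hTb, Subgroup.card_bot] at hTc
    have := Nat.one_lt_pow hne hr.one_lt
    omega
  have hprod := Nat.prod_factorization_pow_eq_self hN0
  have hsupp : (Nat.card (K1 G)).factorization.support ⊆ {2, 3} := by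
    intro r hr
    have hr2 : (Nat.card (K1 G)).factorization r ≠ 0 := Finsupp.mem_support_iff.1 hr
    have hr1 : r.Prime := by
      by_contra hnp
      exact hr2 (Nat.factorization_eq_zero_of_not_prime _ hnp)
    by_contra hcon
    simp only [Finset.mem_insert, Finset.mem_singleton, not_or] at hcon
    exact hr2 (h5 r hr1 hcon.1 hcon.2)
  rw [Finsupp.prod_of_support_subset _ hsupp _ (fun i _ => pow_zero i)] at hprod
  rw [Finset.prod_pair (by norm_num)] at hprod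
  calc Nat.card (K1 G) = 2 ^ (Nat.card (K1 G)).factorization 2 *
        3 ^ (Nat.card (K1 G)).factorization 3 := hprod.symm
    _ ≤ 2 * Nat.card (K1 G ⊓ (P : Subgroup G) : Subgroup G) := Nat.mul_le_mul h2 h3

end Pool.Agent.helper75.AU
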